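import Pool.Agent.Run7.h2.OB.SO

set_option autoImplicit false

/-!
# 1-motives over products of abelian varieties of unitary types

Let `M = [ℤ^n → G_Q]` be a 1-motive over the field `ℚ̄` of algebraic numbers, `G_Q` an extension of the
abelian variety `A` by `G_m^s` (`AbVarG`, `IsOneMotive`: see the description in
`Pool/Agent/Results/MP_5d33ca_ag/UnitaryOneMotives.lean` and `Pool/Agent/N208/OU/Defs.lean`; up to isogeny
these are all 1-motives over `ℚ̄`). The Nori motive `M` has the motivic Galois group `G_mot(M)`; by theorems
of Brylinski and André it is the Mumford-Tate group of the mixed Hodge structure `H_1(M)`. The
comparison isomorphism `φ_M` is a point of a torsor of `G_mot(M)` over `ℚ̄`, and Q1 (for `k = ℚ̄`) says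
that it is a generic point. So Q1 for `M` implies that every algebraic group `G ⊆ GL(H_B(M))` over `ℚ`
with a torsor over `ℚ̄` which contains `φ_M` (`ContainsPeriods`) contains `G_mot(M)`: if `G` does not
contain `G_mot(M)`, then `φ_M` is a point of a closed subset of the torsor of `G_mot(M)` of smaller
dimension, defined over `ℚ̄`, and the transcendence degree in Q1 is too small. The prediction for `M` is
`Ω^And = Ω^dRB`, for `M` and for all motives generated by `M`.

**Theorem.** Let the abelian part `A` be a direct factor of an abelian variety `C` over `ℚ̄`, and let
`z i`, `a i`, `i < k`, be unitary places of `C` (`UnitaryPlaces`, see below), such that the part of the Hodge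
group of `C` which acts trivially on the eigenspaces of `z i` for `± i a i`, for all `i`, acts trivially on the
Mumford-Tate domain of `A` (`DomainOfPlaces`). Let `G` be an algebraic group over `ℚ` with a torsor
over `ℚ̄` which contains `φ_M`.

1. `G` contains the derived group of `G_mot(M)`: it contains `exp (t Z)` for all complex numbers `t` and
   all `Z` in the derived algebra of the Lie algebra of the Mumford-Tate group of `M`.
2. If moreover the centre of the Lie algebra of the Hodge group of `C` is rigid (`RigidCentre`), then
   `G` contains `G_mot(M)`.

There is no condition on the points which define the 1-motive. By part 1 of the starting result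
`MP_5d33ca_ag.UnitaryOneMotives` the group `G` contains also the unipotent radical of `G_mot(M)`.

**The unitary places** (`UnitaryPlaces`). The `z i` are central endomorphisms of `C`, skew-symmetric for the
polarization, such that all elements of the centre of `End(C) ⊗ ℚ` are polynomials in `z i` on the
image of `z i`. For example let `C` be isogenous to `∏ C_j ^ (m_j)`, with simple and pairwise not isogenous
`C_j` of type IV, and let `z i` be a generator, with `z̄ = - z`, of the centre `F_j` of `End(C_j) ⊗ ℚ`
for some `j`. Let both `i a` and `- i a`, `a = a i`, be eigenvalues of `z i` on the tangent space of `C`: the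
signature `(r, s)` of the unitary group of the commutant `B_j` at this place is indefinite. Each place
is of one of the following types: the signature is `(1, n)`, and `i a` and `- i a` are separated; or `F_j` is a
field and some place of `F_j` has these two properties, the signature at the place `a i` being arbitrary;
or `B_j` is a division algebra of a prime degree, with arbitrary signature. Different places have
different signatures (`r : s ≠ r' : s'` and `r : s ≠ s' : r'`, `DifferentSignatures`), or they are separated.
The separation of `i a` and `- i a` is satisfied if the order of `B_j` in the Brauer group of `F_j` is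
larger than two.

**What is new.** The starting result `UnitaryOneMotives` treats one central endomorphism, with
signature `(1, n)` at all places or a division algebra of prime degree, and all places have to be
separated. Here:

* `C` can have several factors with different centres. For example let `C = C₁ × C₂ × E₁ × E₂`, `F₁ ≠ F₂`
  imaginary quadratic fields, `C_j` with centre `F_j` such that the commutant of `End(C_j)` is a division
  algebra of prime degree `p_j ≥ 3` over `F_j`, with indefinite signatures `(r_j, s_j)`,
  `{r₁, s₁} ≠ {r₂, s₂}` if `p₁ = p₂` (then `r₁ : s₁ ≠ r₂ : s₂`, `s₂ : r₂` in all cases), and let `E_j` be an elliptic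
  curve with complex multiplication by `F_j`. Then the theorem applies to all 1-motives with abelian
  part isogenous to a factor of a power of `C`;
* places with different signatures need no arithmetic hypothesis on the centres `F_j`;
* if `F_j` is a field, then one place of signature `(1, n)` is enough, the others are arbitrary.

Nothing is assumed about periods: `AbVar` and `AbVarG` are descriptions of abelian varieties over `ℚ̄`
by theta functions (see `Pool/Agent/Y102/AVDefs.lean`), and the transcendence theorems which are used,
the theorem of Schneider and Lang and the transcendence of `π`, are proved in this repository. The group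
`G` is not assumed to be reductive.

## Proof

The proof of `UnitaryOneMotives` reduces the theorem to a statement on the Lie algebra `𝔤` of the
Hodge group of `C`: all subalgebras `𝔮` of `𝔤` which act semisimply on `H_1(C, ℚ)` with the same
commutant as `𝔤` have the same derived algebra, on the sum of the eigenspaces of the `z i` for
`± i a i`. This is proved here in three steps. (1) For a single place the long roots are contained
in `𝔮` (`Pool.Agent.N208.BT`, and the transfer from one place to all places of a field in
`Pool.Agent.Run7.h2.OB.Pl`). (2) Two different places are not linked: by the separation, or because a link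
respects the hermitian forms up to a real factor, so that the signatures agree up to the order
(`Pool.Agent.Run7.h2.OB.Lk`; the signature of the form and the multiplicities on the tangent space are
compared in `Lk2`). (3) The lemma of Goursat and Ribet for the family of places
(`Pool.Agent.Run7.h2.OB.GJ`).
-/

namespace Pool.Agent.Results.MP_12eca1_ag.OneMotivesManyPlaces

open Module Matrix Pool.Agent.Y102 Pool.Agent.R917.OM Pool.Agent.N208.OneM Run7.h2.OB.SO

/-- **Theorem.** Let `M` be a 1-motive over `ℚ̄` with the abelian part `A`, and let `G` be an algebraic
group over `ℚ` with a torsor over `ℚ̄` which contains the comparison isomorphism of `M`. Let `A` be a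
direct factor of an abelian variety `C` with unitary places `z i`, `a i`, such that different places have
different signatures or are separated, and such that the part of the Hodge group of `C` which acts
trivially on the eigenspaces for `± i a i` acts trivially on the Mumford-Tate domain of `A`.

1. `G` contains `exp (t Z)` for all complex numbers `t` and all `Z` in the derived algebra of the Lie
   algebra of the Mumford-Tate group of `M`.
2. If the centre of the Lie algebra of the Hodge group of `C` is rigid, then the Mumford-Tate group
   of `M` is contained in `G`. -/
theorem result (g n s : ℕ) (A : AbVarG g) (u : Fin n → Fin g → ℂ) (v : Fin s → Fin g → ℂ)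
    (ℓ : Fin n → Fin s → ℂ) (hM : IsOneMotive A u v ℓ)
    (G : Subgroup (GL (Betti g n s) ℂ)) (hG : IsAlgebraicSubgroup G)
    (hP : ContainsPeriods A u v ℓ G) (g' : ℕ) (C : AbVar g') (f : A.toAbVar.H1 →ₗ[ℚ] C.H1)
    (p : C.H1 →ₗ[ℚ] A.toAbVar.H1) (k : ℕ) (z : Fin k → EndQ C) (a : Fin k → ℝ)
    (hF : IsFactor A.toAbVar C f p) (hU : UnitaryPlaces C z a)
    (hD : DomainOfPlaces A.toAbVar C f p z a) :
    (∀ Z ∈ derived (mtLie A u v ℓ), ∀ t : ℂ, IsIn G (NormedSpace.exp (t • cplx Z))) ∧
      (RigidCentre C → mumfordTate A u v ℓ ≤ G) :=
  main g n s A u v ℓ hM G hG hP g' C f p k z a hF hU hD

end Pool.Agent.Results.MP_12eca1_ag.OneMotivesManyPlaces
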